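import Pool.Agent.Lib.MP_596974_co.Kelly

namespace Pool.Agent.Results.MP_596974_co.Lower

open Pool.Agent.Lib.MP_596974_co

/-- Every set of `n ≥ 2` points of the hyperbolic plane has at least `c n ^ 2` ordinary
horocycles. -/
theorem result : ∃ c : ℝ, 0 < c ∧ ∀ P : Finset ℂ, (∀ z ∈ P, ‖z‖ < 1) → 2 ≤ P.card →
    c * (P.card : ℝ) ^ 2 ≤ ((ordinary P).ncard : ℝ) := by
  obtain ⟨c, hc, n0, h⟩ := many_ordinary
  refine ⟨min c (1 / ((n0 : ℝ) + 1) ^ 2), lt_min hc (by positivity), fun P hP hn => ?_⟩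
  rcases le_or_gt n0 P.card with l | l
  · exact (mul_le_mul_of_nonneg_right (min_le_left _ _) (by positivity)).trans (h P hP l)
  · refine (mul_le_mul_of_nonneg_right (min_le_right _ _) (by positivity)).trans ?_
    have h1 : (1 : ℝ) ≤ (ordinary P).ncard := by exact_mod_cast one_le_ordinary P hP hn
    have h2 : (P.card : ℝ) ≤ n0 + 1 := by exact_mod_cast (by omega : P.card ≤ n0 + 1)
    refine le_trans ?_ h1
    rw [one_div, inv_mul_le_iff₀ (by positivity), mul_one]
    exact pow_le_pow_left₀ (by positivity) h2 2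

end Pool.Agent.Results.MP_596974_co.Lower
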