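import Pool.Agent.Lib.MP_596974_co.Rich

namespace Pool.Agent.Results.MP_596974_co.Rich

open Pool.Agent.Lib.MP_596974_co

/-- If `a` of the `n` points lie on a horocycle `H₁`, `b` further points on a horocycle `H₂` and
`k` points on neither, there are at least
`n ^ 2 - (a ^ 2 + b ^ 2) / 2 - 3 k (k + 2 b) - ε n ^ 2` ordinary horocycles. -/
theorem result : ∀ ε : ℝ, 0 < ε → ∃ n₀ : ℕ, ∀ (P : Finset ℂ) (H₁ H₂ : Set ℂ) (n a b k : ℕ),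
    (∀ z ∈ P, ‖z‖ < 1) → IsHorocycle H₁ → IsHorocycle H₂ → P.card = n → n₀ ≤ n →
    (↑P ∩ H₁).ncard = a → (↑P ∩ (H₂ \ H₁)).ncard = b → (↑P \ (H₁ ∪ H₂)).ncard = k →
    (n : ℝ) ^ 2 - ((a : ℝ) ^ 2 + (b : ℝ) ^ 2) / 2 - 3 * (k : ℝ) * (k + 2 * b) - ε * (n : ℝ) ^ 2 ≤
      ((ordinary P).ncard : ℝ) := by
  classical
  intro ε hε
  obtain ⟨n0, h⟩ := two_rich hε
  refine ⟨n0, ?_⟩
  rintro P H1 H2 _ _ _ _ hP h1 h2 rfl hn rfl rfl rfl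
  have e : ∀ (S : Set ℂ) (p : ℂ → Prop) [DecidablePred p], (∀ z, z ∈ S ↔ z ∈ P ∧ p z) →
      S.ncard = (P.filter p).card := fun S p _ k => by
    rw [← Set.ncard_coe_finset]
    exact congrArg _ (Set.ext fun z => (k z).trans Finset.mem_filter.symm)
  rw [e (↑P ∩ H1) (· ∈ H1) fun _ => Iff.rfl,
    e (↑P ∩ (H2 \ H1)) (· ∈ H2 \ H1) fun _ => Iff.rfl,
    e (↑P \ (H1 ∪ H2)) (· ∉ H1 ∪ H2) fun _ => Iff.rfl]
  convert h P H1 H2 hP hn h1 h2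

end Pool.Agent.Results.MP_596974_co.Rich
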