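import Pool.Agent.Lib.MP_596974_co.Small

namespace Pool.Agent.Results.MP_596974_co.Small

open Pool.Agent.Lib.MP_596974_co

/-- The least number of ordinary horocycles of `n` points is `3, 3, 2, 3` for `n = 3, 4, 5, 6`. -/
theorem result : ∀ n : ℕ, 3 ≤ n → n ≤ 6 →
    IsLeast {k : ℕ | ∃ P : Finset ℂ, (∀ z ∈ P, ‖z‖ < 1) ∧ P.card = n ∧ (ordinary P).Finite ∧
      (ordinary P).ncard = k} (if n = 5 then 2 else 3) := by
  intro n h3 h6
  have up : ∃ P : Finset ℂ, (∀ z ∈ P, ‖z‖ < 1) ∧ P.card = n ∧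
      (ordinary P).ncard ≤ if n = 5 then 2 else 3 := by
    interval_cases n
    exacts [config3, config4, config5, config6]
  have low : ∀ P : Finset ℂ, (∀ z ∈ P, ‖z‖ < 1) → P.card = n →
      (if n = 5 then 2 else 3) ≤ (ordinary P).ncard := by
    rintro P h1 rfl
    exact small_lower P h1 h3 h6
  obtain ⟨P, h1, h2, h⟩ := up
  refine ⟨⟨P, h1, h2, ordinary_finite P, le_antisymm h (low P h1 h2)⟩, ?_⟩
  rintro k ⟨Q, a, b, -, rfl⟩
  exact low Q a b

end Pool.Agent.Results.MP_596974_co.Small
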