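import Pool.Agent.Lib.MP_596974_co.Upper2

namespace Pool.Agent.Results.MP_596974_co.Upper

open Pool.Agent.Lib.MP_596974_co

/-- For `n ≥ 5` some `n` points have at most `n ^ 2 / 2 - 9 n / 2 + 15` ordinary horocycles. -/
theorem result : ∀ n : ℕ, 5 ≤ n → ∃ P : Finset ℂ, (∀ z ∈ P, ‖z‖ < 1) ∧ P.card = n ∧
    (ordinary P).Finite ∧ 2 * (ordinary P).ncard + 9 * n ≤ n ^ 2 + 30 := by
  intro n hn
  obtain ⟨N, rfl⟩ : ∃ N, n = N + 2 := ⟨n - 2, by omega⟩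
  obtain ⟨P, h1, h2, h3⟩ := exists_fewer N (by omega)
  exact ⟨P, h1, h2, ordinary_finite P, by nlinarith⟩

end Pool.Agent.Results.MP_596974_co.Upper
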